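import Pool.Agent.Helper12.EK.Defs
import Pool.Agent.Helper6.MC.Fam

/-!
# A small component with a large orbit gives a family of blocks
-/

set_option autoImplicit false
set_option linter.unusedSectionVars false

namespace Pool.Agent.Helper83.EK

open Pool.Agent.Helper6.MC (IsAut Flip Fam Df)
open Pool.Agent.Helper12.EK

variable {M Col : Type} [Fintype M] [DecidableEq M] [DecidableEq Col] {c : M → M → Col} {A : Finset M} {L : ℕ}

lemma gr_adj {E : M → M → Prop} {x y : M} : (Gr E).Adj x y ↔ x ≠ y ∧ (E x y ∨ E y x) := by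
  unfold Gr
  rw [SimpleGraph.fromRel_adj]

lemma reach_map83 {E : M → M → Prop} {g : Equiv.Perm M} (hE : ∀ x z, E x z → E (g x) (g z)) {x y : M}
    (h : (Gr E).Reachable x y) : (Gr E).Reachable (g x) (g y) := by
  let F : Gr E →g Gr E :=
    { toFun := g
      map_rel' := by
        intro a b hab
        rw [gr_adj] at hab ⊢
        exact ⟨fun h => hab.1 (g.injective h), hab.2.imp (hE _ _) (hE _ _)⟩ }
  exact h.map F

lemma LO_reach83 {x y : M} (hx : x ∈ LO c A L) (h : (Gr (EO c A L)).Reachable x y) : y ∈ LO c A L := by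
  obtain ⟨w⟩ := h
  induction w with
  | nil => exact hx
  | cons hadj _ ih =>
    apply ih
    rcases (gr_adj.1 hadj).2 with h1 | h1
    · exact h1.2.1
    · exact h1.1

lemma Cmp_card_map83 {E : M → M → Prop} {g : Equiv.Perm M} (hE : ∀ x z, E x z → E (g.symm x) (g.symm z)) (x : M) :
    (Cmp E (g x)).card ≤ (Cmp E x).card := by
  apply Finset.card_le_card_of_injOn (fun y => g.symm y)
  · intro y hy
    have h1 := mem_Cmp.1 (Finset.mem_coe.1 hy)
    have h2 := reach_map83 hE h1
    rw [Equiv.symm_apply_apply] at h2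
    exact Finset.mem_coe.2 (mem_Cmp.2 h2)
  · intro y _ z _ hyz
    exact g.symm.injective hyz

/-- a small component with a large orbit gives a family -/
theorem small_comp_of (hf : Flip c)
    (hom : ∀ {x z x' z' : M}, x ∈ LO c A L → z ∈ LO c A L → x' ∈ Orb c A x → z' ∈ Orb c A z → ¬ EO c A L x z →
      ¬ EO c A L x' z' → c x z = c x' z')
    (haut : ∀ {g : Equiv.Perm M}, St c A g → ∀ {x z : M}, EO c A L x z → EO c A L (g x) (g z))
    (horb : ∀ {x z : M}, (Orb c A x).card ^ 2 * L < (Orb c A z).card → ∀ x' ∈ Orb c A x, ∀ z' ∈ Orb c A z,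
      c x' z' = c x z)
    {x : M} {k D : ℕ}
    (hk : (Cmp (EO c A L) x).card ≤ k) (hO : k * (D + 16 * L ^ 3 + 4 * L + 1) < (Orb c A x).card) :
    ∃ t, 1 ≤ t ∧ t ≤ k ∧ Fam c t D := by
  classical
  have hxx : x ∈ Cmp (EO c A L) x := mem_Cmp.2 (SimpleGraph.Reachable.refl x)
  have ht : 1 ≤ (Cmp (EO c A L) x).card := Finset.card_pos.2 ⟨x, hxx⟩
  have hk1 : 1 ≤ k := ht.trans hk
  have hx : x ∈ LO c A L := by
    rw [mem_LO]
    have : 1 * (D + 16 * L ^ 3 + 4 * L + 1) ≤ k * (D + 16 * L ^ 3 + 4 * L + 1) :=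
      Nat.mul_le_mul_right _ hk1
    omega
  let cc : M → (Gr (EO c A L)).ConnectedComponent := fun y => (Gr (EO c A L)).connectedComponentMk y
  have hcc : ∀ a b, cc a = cc b ↔ (Gr (EO c A L)).Reachable a b := fun a b => SimpleGraph.ConnectedComponent.eq
  have hE : ∀ {g : Equiv.Perm M}, St c A g → ∀ a b, EO c A L a b → EO c A L (g a) (g b) :=
    fun hg a b h => haut hg h
  have h1 : (Orb c A x).card ≤ k * ((Orb c A x).image cc).card := by
    apply Finset.card_le_mul_card_image
    intro r hr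
    obtain ⟨y, hy, rfl⟩ := Finset.mem_image.1 hr
    obtain ⟨g, hg, rfl⟩ := mem_Orb.1 hy
    have h2 : (Orb c A x).filter (fun a => cc a = cc (g x)) ⊆ Cmp (EO c A L) (g x) := by
      intro a ha
      exact mem_Cmp.2 ((hcc _ _).1 (Finset.mem_filter.1 ha).2.symm)
    exact (Finset.card_le_card h2).trans ((Cmp_card_map83 (hE hg.inv) x).trans hk)
  have h2 : D + 16 * L ^ 3 + 1 ≤ ((Orb c A x).image cc).card := by
    by_contra hcon
    push Not at hcon
    have h3 : k * ((Orb c A x).image cc).card ≤ k * (D + 16 * L ^ 3 + 4 * L + 1) :=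
      Nat.mul_le_mul_left k (by omega)
    omega
  obtain ⟨I, hI, hIq⟩ := Finset.exists_subset_card_eq h2
  have eI : Fin (D + 16 * L ^ 3 + 1) ≃ I := (Finset.equivFinOfCardEq hIq).symm
  have h3 : ∀ i : Fin (D + 16 * L ^ 3 + 1), ∃ g, St c A g ∧ cc (g x) = (eI i : _) := by
    intro i
    obtain ⟨y, hy, hy'⟩ := Finset.mem_image.1 (hI (eI i).2)
    obtain ⟨g, hg, rfl⟩ := mem_Orb.1 hy
    exact ⟨g, hg, hy'⟩
  choose g hg hgr using h3
  let e := (Cmp (EO c A L) x).equivFin
  let z : Fin (Cmp (EO c A L) x).card → M := fun a => ((e.symm a : Cmp (EO c A L) x) : M)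
  have hz : ∀ a, (Gr (EO c A L)).Reachable x (z a) := fun a => mem_Cmp.1 (e.symm a).2
  have hzW : ∀ a, z a ∈ LO c A L := fun a => LO_reach83 hx (hz a)
  have hzinj : Function.Injective z := fun a b hab => e.symm.injective (Subtype.ext hab)
  have hrt : ∀ i a, cc (g i (z a)) = (eI i : _) := by
    intro i a
    rw [← hgr i]
    exact ((hcc _ _).2 (reach_map83 (hE (hg i)) (hz a))).symm
  have hcl : ∀ i a, g i (z a) ∈ Orb c A (z a) := fun i a => mem_Orb.2 ⟨g i, hg i, rfl⟩
  have hcl' : ∀ i i' a, g i' (z a) ∈ Orb c A (g i (z a)) := by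
    intro i i' a
    rw [Orb_eq (hcl i a)]
    exact hcl i' a
  have hgW : ∀ i a, g i (z a) ∈ LO c A L := fun i a => LO_of_mem (hcl i a) (hzW a)
  have hij : ∀ i j, i ≠ j → ∀ a b, cc (g i (z a)) ≠ cc (g j (z b)) := by
    intro i j hij a b h
    rw [hrt, hrt] at h
    exact hij (eI.injective (Subtype.ext h))
  have hne : ∀ a b, cc a ≠ cc b → ¬ EO c A L a b := by
    intro a b hab h
    apply hab
    by_cases he : a = b
    · rw [he]
    · exact (hcc _ _).2 (gr_adj.2 ⟨he, Or.inl h⟩ : (Gr (EO c A L)).Adj a b).reachable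
  -- the orbits of the points of the component are large
  have hbig : ∀ a, 16 * L ^ 3 < (Orb c A (z a)).card := by
    intro a
    have h4 : (Finset.univ : Finset (Fin (D + 16 * L ^ 3 + 1))).card ≤ (Orb c A (z a)).card := by
      apply Finset.card_le_card_of_injOn (fun i => g i (z a))
      · intro i _
        exact Finset.mem_coe.2 (hcl i a)
      · intro i _ j _ h
        by_contra hcon
        exact hij i j hcon a a (congrArg cc h)
    rw [Finset.card_univ, Fintype.card_fin] at h4
    omega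
  have hD : D ≤ D + 16 * L ^ 3 + 1 := by omega
  refine ⟨(Cmp (EO c A L) x).card, ht, hk, fun p => g (Fin.castLE hD p.1) (z p.2), ?_, ?_, ?_, ?_⟩
  · rintro ⟨i, a⟩ ⟨j, b⟩ h
    have h' : g (Fin.castLE hD i) (z a) = g (Fin.castLE hD j) (z b) := h
    have h4 : i = j := by
      by_contra hne'
      exact hij _ _ (fun h => hne' (Fin.castLE_injective hD h)) a b (congrArg cc h')
    subst h4
    have h5 := hzinj ((g _).injective h')
    rw [h5]
  · intro i i' a w hw
    show c (g (Fin.castLE hD i) (z a)) w = c (g (Fin.castLE hD i') (z a)) w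
    by_cases hwW : w ∈ LO c A L
    · have hne' : ∀ i : Fin D, ¬ EO c A L (g (Fin.castLE hD i) (z a)) w := by
        intro i
        apply hne
        intro h
        have h4 := (hcc _ _).1 h
        have h5 := reach_map83 (hE (hg (Fin.castLE hD i)).inv) h4
        rw [Equiv.symm_apply_apply] at h5
        have h6 : (g (Fin.castLE hD i)).symm w ∈ Cmp (EO c A L) x := mem_Cmp.2 ((hz a).trans h5)
        apply hw (i, e ⟨_, h6⟩)
        show g (Fin.castLE hD i) ((e.symm (e ⟨_, h6⟩) : Cmp (EO c A L) x) : M) = w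
        rw [Equiv.symm_apply_apply]
        exact (g (Fin.castLE hD i)).apply_symm_apply w
      exact hom (hgW _ a) hwW (hcl' _ _ a) (self_Orb w) (hne' i) (hne' i')
    · have h4 : (Orb c A w).card ≤ 4 * L := by
        by_contra hcon
        exact hwW (mem_LO.2 (not_le.1 hcon))
      have h5 : (Orb c A w).card ^ 2 * L < (Orb c A (z a)).card := by
        refine lt_of_le_of_lt ?_ (hbig a)
        calc (Orb c A w).card ^ 2 * L ≤ (4 * L) ^ 2 * L := Nat.mul_le_mul_right _ (Nat.pow_le_pow_left h4 2)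
          _ = 16 * L ^ 3 := by ring
      have h6 : ∀ i, c w (g i (z a)) = c w (z a) := fun i => horb h5 w (self_Orb w) _ (hcl i a)
      exact hf _ _ _ _ ((h6 _).trans (h6 _).symm)
  · intro i i' a b
    show c (g _ (z a)) (g _ (z b)) = c (g _ (z a)) (g _ (z b))
    exact ((hg _).1 _ _).trans ((hg _).1 _ _).symm
  · intro i j i' j' a b h h'
    show c (g _ (z a)) (g _ (z b)) = c (g _ (z a)) (g _ (z b))
    exact hom (hgW _ a) (hgW _ b) (hcl' _ _ a) (hcl' _ _ b)
      (hne _ _ (hij _ _ (fun hh => h (Fin.castLE_injective hD hh)) a b))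
      (hne _ _ (hij _ _ (fun hh => h' (Fin.castLE_injective hD hh)) a b))

end Pool.Agent.Helper83.EK
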